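import Pool.Agent.Q188.FC.StmK

/-!
# Project FC (helper188), job FC-GS (helper38): uniform differentiability of the field
-/

set_option autoImplicit false

open MeasureTheory Metric Filter
open scoped Topology

namespace Pool.Agent.Q38.FC.GS

open Pool.Agent.Q188.FC
open Pool.Agent.W716.FV (E gam gd UU)
open Pool.Agent.H241R3.FV (Sph act)

variable {n : ℕ}

/-! ### the norm of a linear map -/

lemma norm_le_sum_inner (w : E n) :
    ‖w‖ ≤ ∑ j, |(inner ℝ w (EuclideanSpace.basisFun (Fin n) ℝ j) : ℝ)| := by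
  set b := EuclideanSpace.basisFun (Fin n) ℝ
  have h1 : ∑ j, (inner ℝ (b j) w : ℝ) • b j = w := b.sum_repr' w
  calc ‖w‖ = ‖∑ j, (inner ℝ (b j) w : ℝ) • b j‖ := by rw [h1]
    _ ≤ ∑ j, ‖(inner ℝ (b j) w : ℝ) • b j‖ := norm_sum_le _ _
    _ = ∑ j, |(inner ℝ w (b j) : ℝ)| := by
      refine Finset.sum_congr rfl fun j _ => ?_
      rw [norm_smul, b.norm_eq_one, mul_one, Real.norm_eq_abs, real_inner_comm]

lemma opNorm_le_sum (M : E n →L[ℝ] E n) {K : ℝ} (hK : 0 ≤ K)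
    (hM : ∀ i j, |(inner ℝ (M (EuclideanSpace.basisFun (Fin n) ℝ i))
      (EuclideanSpace.basisFun (Fin n) ℝ j) : ℝ)| ≤ K) : ‖M‖ ≤ n ^ 2 * K := by
  refine ContinuousLinearMap.opNorm_le_bound _ (by positivity) fun v => ?_
  set b := EuclideanSpace.basisFun (Fin n) ℝ with hb
  have h1 : ∑ j, (inner ℝ (b j) v : ℝ) • b j = v := b.sum_repr' v
  have h2 : ∀ i, ‖M (b i)‖ ≤ n * K := by
    intro i
    refine (norm_le_sum_inner (M (b i))).trans ?_
    refine (Finset.sum_le_sum fun j _ => hM i j).trans ?_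
    rw [Finset.sum_const, Finset.card_univ, Fintype.card_fin, nsmul_eq_mul]
  calc ‖M v‖ = ‖∑ j, (inner ℝ (b j) v : ℝ) • M (b j)‖ := by
        conv_lhs => rw [← h1]
        rw [map_sum]
        simp only [map_smul]
    _ ≤ ∑ j, ‖(inner ℝ (b j) v : ℝ) • M (b j)‖ := norm_sum_le _ _
    _ ≤ ∑ _j : Fin n, ‖v‖ * (n * K) := by
      refine Finset.sum_le_sum fun j _ => ?_
      rw [norm_smul]
      have h3 : ‖(inner ℝ (b j) v : ℝ)‖ ≤ ‖v‖ := by
        have := norm_inner_le_norm (𝕜 := ℝ) (b j) v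
        rwa [b.norm_eq_one, one_mul] at this
      have h4 := h2 j
      have h5 : 0 ≤ ‖M (b j)‖ := norm_nonneg _
      have h6 : 0 ≤ ‖v‖ := norm_nonneg _
      gcongr
    _ = n ^ 2 * K * ‖v‖ := by
      rw [Finset.sum_const, Finset.card_univ, Fintype.card_fin, nsmul_eq_mul]
      ring

/-! ### continuity of the kernel -/

lemma lf_nonneg (p : E n) : 0 ≤ lf p := inv_nonneg.mpr (Real.sqrt_nonneg _)

lemma lf_cont {p₀ : E n} (hp : ‖p₀‖ < 1) : ContinuousAt (fun p : E n => lf p) p₀ := by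
  unfold lf
  have h1 : 0 < 1 - ‖p₀‖ ^ 2 := by nlinarith [norm_nonneg p₀]
  have h2 : √(1 - ‖p₀‖ ^ 2) ≠ 0 := (Real.sqrt_pos.mpr h1).ne'
  refine ContinuousAt.inv₀ ?_ h2
  exact Continuous.continuousAt (by fun_prop)

lemma NN_cont {p₀ : E n} (hp : ‖p₀‖ < 1) (v : E n) : ContinuousAt (fun p : E n => NN p v) p₀ := by
  unfold NN
  have h1 := lf_cont hp
  have h2 : 1 + lf p₀ ≠ 0 := by
    have := lf_nonneg p₀
    positivity
  have h3 : ContinuousAt (fun p : E n => lf p ^ 2 / (1 + lf p)) p₀ :=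
    (h1.pow 2).div (continuousAt_const.add h1) h2
  have h4 : ContinuousAt (fun p : E n => (inner ℝ p v : ℝ)) p₀ :=
    Continuous.continuousAt (by fun_prop)
  exact continuousAt_const.add ((h3.mul h4).smul continuousAt_id)

lemma gd_cont : Continuous (gd n) := by
  unfold gd
  fun_prop

lemma dk_cont_p {p₀ : E n} (hp : ‖p₀‖ < 1) (a a' : E n) (t : ℝ) (y : E n) :
    ContinuousAt (fun p : E n => dk p a a' (Lam p (t, y))) p₀ := by
  have h1 := lf_cont hp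
  have hin : ∀ v : E n, ContinuousAt (fun p : E n => (inner ℝ p v : ℝ)) p₀ := fun v =>
    Continuous.continuousAt (by fun_prop)
  have h2 : ContinuousAt (fun p : E n => (Lam p (t, y)).1) p₀ := by
    unfold Lam
    exact h1.mul (continuousAt_const.sub (hin y))
  have h3 : ContinuousAt (fun p : E n => (Lam p (t, y)).2) p₀ := by
    unfold Lam
    exact (NN_cont hp y).sub ((h1.mul continuousAt_const).smul continuousAt_id)
  have h4 : ContinuousAt (fun p : E n => gd n (Lam p (t, y)).2) p₀ :=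
    gd_cont.continuousAt.comp h3
  have h5 : ContinuousAt (fun p : E n => (inner ℝ (NN p a) (Lam p (t, y)).2 : ℝ)) p₀ :=
    ContinuousAt.inner (𝕜 := ℝ) (NN_cont hp a) h3
  have h6 : ContinuousAt (fun p : E n => (inner ℝ (NN p a') (Lam p (t, y)).2 : ℝ)) p₀ :=
    ContinuousAt.inner (𝕜 := ℝ) (NN_cont hp a') h3
  have h7 : ContinuousAt (fun p : E n => (inner ℝ (NN p a) (NN p a') : ℝ)) p₀ :=
    ContinuousAt.inner (𝕜 := ℝ) (NN_cont hp a) (NN_cont hp a')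
  unfold dk
  exact h4.mul ((h2.mul ((h5.mul h6).sub h7)).add
    (h1.mul (((hin a').mul h5).sub ((hin a).mul h6))))

lemma dk_cont (p a a' : E n) :
    Continuous (fun q : E n × ℝ => dk p a a' (Lam p (q.2, q.1))) := by
  have h1 : Continuous (fun q : E n × ℝ => (Lam p (q.2, q.1)).1) := by
    unfold Lam
    fun_prop
  have h2 : Continuous (fun q : E n × ℝ => (Lam p (q.2, q.1)).2) := by
    unfold Lam NN
    fun_prop
  have h3 : Continuous (fun q : E n × ℝ => gd n (Lam p (q.2, q.1)).2) := gd_cont.comp h2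
  have h5 : ∀ v : E n, Continuous (fun q : E n × ℝ => (inner ℝ v (Lam p (q.2, q.1)).2 : ℝ)) :=
    fun v => continuous_const.inner h2
  unfold dk
  exact h3.mul ((h1.mul (((h5 _).mul (h5 _)).sub continuous_const)).add
    (continuous_const.mul ((continuous_const.mul (h5 _)).sub (continuous_const.mul (h5 _)))))

lemma dk_cont_t (p a a' y : E n) : Continuous (fun t : ℝ => dk p a a' (Lam p (t, y))) := by
  have h1 : Continuous (fun t : ℝ => (Lam p (t, y)).1) := by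
    unfold Lam
    fun_prop
  have h2 : Continuous (fun t : ℝ => (Lam p (t, y)).2) := by
    unfold Lam NN
    fun_prop
  have h3 : Continuous (fun t : ℝ => gd n (Lam p (t, y)).2) := gd_cont.comp h2
  have h5 : ∀ v : E n, Continuous (fun t : ℝ => (inner ℝ v (Lam p (t, y)).2 : ℝ)) :=
    fun v => continuous_const.inner h2
  unfold dk
  exact h3.mul ((h1.mul (((h5 _).mul (h5 _)).sub continuous_const)).add
    (continuous_const.mul ((continuous_const.mul (h5 _)).sub (continuous_const.mul (h5 _)))))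

/-! ### integrability -/

lemma int_exp {b : ℝ} (hb : 0 < b) : Integrable (fun y : E n => Real.exp (-(b * ‖y‖ ^ 2))) := by
  have h := GaussianFourier.integrable_cexp_neg_mul_sq_norm_add (V := E n) (b := (b : ℂ))
    (by simpa using hb) 0 0
  refine h.norm.congr (Eventually.of_forall fun y => ?_)
  simp only [zero_mul, add_zero, Complex.norm_exp]
  congr 1
  have : (-(b : ℂ) * (‖y‖ : ℂ) ^ 2) = ((-(b * ‖y‖ ^ 2) : ℝ) : ℂ) := by push_cast; ring
  rw [this, Complex.ofReal_re]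

lemma int_norm_exp {b : ℝ} (hb : 0 < b) :
    Integrable (fun y : E n => ‖y‖ * Real.exp (-(b * ‖y‖ ^ 2))) := by
  have h1 := (int_exp (n := n) (b := b / 2) (by positivity)).const_mul (1 + 2 / b)
  refine h1.mono' (Continuous.aestronglyMeasurable (by fun_prop)) (Eventually.of_forall fun y => ?_)
  rw [Real.norm_of_nonneg (by positivity)]
  have h2 : Real.exp (-(b * ‖y‖ ^ 2)) = Real.exp (-(b / 2 * ‖y‖ ^ 2)) * Real.exp (-(b / 2 * ‖y‖ ^ 2)) := by
    rw [← Real.exp_add]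
    congr 1
    ring
  have h3 : ‖y‖ * Real.exp (-(b / 2 * ‖y‖ ^ 2)) ≤ 1 + 2 / b := by
    rw [Real.exp_neg, ← div_eq_mul_inv, div_le_iff₀ (Real.exp_pos _)]
    have h4 := Real.add_one_le_exp (b / 2 * ‖y‖ ^ 2)
    have h5 : ‖y‖ ≤ 1 + ‖y‖ ^ 2 := by nlinarith [sq_nonneg (‖y‖ - 1 / 2)]
    have h6 : (1 + 2 / b) * (b / 2 * ‖y‖ ^ 2 + 1) = 1 + ‖y‖ ^ 2 + (b / 2 * ‖y‖ ^ 2 + 2 / b) := by
      field_simp
      ring
    have h7 : 0 ≤ b / 2 * ‖y‖ ^ 2 + 2 / b := by positivity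
    have h8 : 0 < 1 + 2 / b := by positivity
    nlinarith
  rw [h2, ← mul_assoc]
  exact mul_le_mul_of_nonneg_right h3 (Real.exp_pos _).le

/-! ### the inner integral -/

lemma Cc.abs_le {φ : E n → ℝ} (h : Cc φ) (y : E n) : |φ y| ≤ ‖y‖ := by
  have h0 : φ 0 = 0 := by
    have := h.hom 0 0
    simpa using this
  have := h.lip y 0
  rwa [h0, sub_zero, sub_zero] at this

lemma Cc.cont {φ : E n → ℝ} (h : Cc φ) : Continuous φ := by
  have : LipschitzWith 1 φ := LipschitzWith.of_dist_le_mul fun x y => by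
    rw [Real.dist_eq, dist_eq_norm, NNReal.coe_one, one_mul]
    exact h.lip x y
  exact this.continuous

/-- the inner integral -/
noncomputable def II (p a a' : E n) (φ : E n → ℝ) (y : E n) : ℝ :=
  ∫ t in (0 : ℝ)..φ y, dk p a a' (Lam p (t, y))

lemma II_cont (p a a' : E n) {φ : E n → ℝ} (h : Cc φ) : Continuous (II p a a' φ) := by
  unfold II
  refine intervalIntegral.continuous_parametric_intervalIntegral_of_continuous
    (f := fun (y : E n) (t : ℝ) => dk p a a' (Lam p (t, y))) ?_ (Cc.cont h)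
  exact dk_cont p a a'

lemma dk_ii (p a a' y : E n) (s t : ℝ) :
    IntervalIntegrable (fun t => dk p a a' (Lam p (t, y))) volume s t :=
  (dk_cont_t p a a' y).intervalIntegrable _ _

lemma mem_uIoc_abs {s t x : ℝ} {r : ℝ} (hs : |s| ≤ r) (ht : |t| ≤ r) (hx : x ∈ Set.uIoc s t) :
    |x| ≤ r := by
  rw [abs_le] at hs ht ⊢
  rw [Set.mem_uIoc] at hx
  rcases hx with h | h <;> constructor <;> linarith [h.1, h.2, hs.1, hs.2, ht.1, ht.2]

/-- the bounds of `KerBound` for one `p` -/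
def Bd (c C : ℝ) (p : E n) : Prop := ∀ (t : ℝ) (y : E n), |t| ≤ ‖y‖ → ∀ a a' : E n,
  |dk p a a' (Lam p (t, y))| ≤ C * Real.exp (-(c * ‖y‖ ^ 2)) * ‖a‖ * ‖a'‖

lemma inner_bound {c C : ℝ} {p : E n} (hB : Bd c C p) (a a' y : E n) {s t : ℝ} (hs : |s| ≤ ‖y‖)
    (ht : |t| ≤ ‖y‖) : ‖∫ x in s..t, dk p a a' (Lam p (x, y))‖ ≤
      C * Real.exp (-(c * ‖y‖ ^ 2)) * ‖a‖ * ‖a'‖ * |t - s| :=
  intervalIntegral.norm_integral_le_of_norm_le_const fun x hx =>
    hB x y (mem_uIoc_abs hs ht hx) a a'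

lemma II_int {c C : ℝ} (hc : 0 < c) {p : E n} (hB : Bd c C p) (a a' : E n) {φ : E n → ℝ} (h : Cc φ) :
    Integrable (II p a a' φ) := by
  refine ((int_norm_exp (n := n) hc).const_mul (C * ‖a‖ * ‖a'‖)).mono'
    (II_cont p a a' h).aestronglyMeasurable (Eventually.of_forall fun y => ?_)
  have h1 := inner_bound hB a a' y (s := 0) (t := φ y) (by simp) (Cc.abs_le h y)
  rw [sub_zero] at h1
  have h2 : 0 ≤ C * Real.exp (-(c * ‖y‖ ^ 2)) * ‖a‖ * ‖a'‖ := by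
    have := hB 0 y (by simp) a a'
    exact (abs_nonneg _).trans this
  calc ‖II p a a' φ y‖ ≤ C * Real.exp (-(c * ‖y‖ ^ 2)) * ‖a‖ * ‖a'‖ * |φ y| := h1
    _ ≤ C * Real.exp (-(c * ‖y‖ ^ 2)) * ‖a‖ * ‖a'‖ * ‖y‖ := mul_le_mul_of_nonneg_left (Cc.abs_le h y) h2
    _ = C * ‖a‖ * ‖a'‖ * (‖y‖ * Real.exp (-(c * ‖y‖ ^ 2))) := by ring

/-- dependence on the function -/
lemma II_diff {c C : ℝ} (hc : 0 < c) {p : E n} (hB : Bd c C p) (a a' : E n) {φ φ' : E n → ℝ}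
    (h : Cc φ) (h' : Cc φ') {δ : ℝ} (hδ : ∀ y, |φ y - φ' y| ≤ δ * ‖y‖) :
    |(∫ y, II p a a' φ y) - ∫ y, II p a a' φ' y| ≤
      C * ‖a‖ * ‖a'‖ * δ * ∫ y : E n, ‖y‖ * Real.exp (-(c * ‖y‖ ^ 2)) := by
  rw [← integral_sub (II_int hc hB a a' h) (II_int hc hB a a' h'), ← integral_const_mul,
    ← Real.norm_eq_abs]
  refine norm_integral_le_of_norm_le ((int_norm_exp (n := n) hc).const_mul _)
    (Eventually.of_forall fun y => ?_)
  have h1 : II p a a' φ y - II p a a' φ' y = ∫ x in (φ' y)..(φ y), dk p a a' (Lam p (x, y)) := by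
    unfold II
    rw [intervalIntegral.integral_interval_sub_left (dk_ii _ _ _ _ _ _) (dk_ii _ _ _ _ _ _)]
  rw [h1]
  refine (inner_bound hB a a' y (Cc.abs_le h' y) (Cc.abs_le h y)).trans ?_
  have h2 : 0 ≤ C * Real.exp (-(c * ‖y‖ ^ 2)) * ‖a‖ * ‖a'‖ := by
    have := hB 0 y (by simp) a a'
    exact (abs_nonneg _).trans this
  calc C * Real.exp (-(c * ‖y‖ ^ 2)) * ‖a‖ * ‖a'‖ * |φ y - φ' y| ≤
        C * Real.exp (-(c * ‖y‖ ^ 2)) * ‖a‖ * ‖a'‖ * (δ * ‖y‖) := mul_le_mul_of_nonneg_left (hδ y) h2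
    _ = C * ‖a‖ * ‖a'‖ * δ * (‖y‖ * Real.exp (-(c * ‖y‖ ^ 2))) := by ring

/-- continuity in `p` -/
lemma II_p {c C : ℝ} (hc : 0 < c) {p₀ : E n} (hp₀ : ‖p₀‖ < 1) (hB : ∀ᶠ p in 𝓝 p₀, Bd c C p)
    (a a' : E n) {φ : E n → ℝ} (h : Cc φ) :
    ContinuousAt (fun p => ∫ y, II p a a' φ y) p₀ := by
  refine continuousAt_of_dominated (bound := fun y => C * ‖a‖ * ‖a'‖ * (‖y‖ * Real.exp (-(c * ‖y‖ ^ 2))))
    (Eventually.of_forall fun p => (II_cont p a a' h).aestronglyMeasurable) ?_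
    ((int_norm_exp (n := n) hc).const_mul _) (Eventually.of_forall fun y => ?_)
  · filter_upwards [hB] with p hp
    refine Eventually.of_forall fun y => ?_
    have h1 := inner_bound hp a a' y (s := 0) (t := φ y) (by simp) (Cc.abs_le h y)
    rw [sub_zero] at h1
    have h2 : 0 ≤ C * Real.exp (-(c * ‖y‖ ^ 2)) * ‖a‖ * ‖a'‖ := by
      have := hp 0 y (by simp) a a'
      exact (abs_nonneg _).trans this
    calc ‖II p a a' φ y‖ ≤ C * Real.exp (-(c * ‖y‖ ^ 2)) * ‖a‖ * ‖a'‖ * |φ y| := h1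
      _ ≤ C * Real.exp (-(c * ‖y‖ ^ 2)) * ‖a‖ * ‖a'‖ * ‖y‖ := mul_le_mul_of_nonneg_left (Cc.abs_le h y) h2
      _ = C * ‖a‖ * ‖a'‖ * (‖y‖ * Real.exp (-(c * ‖y‖ ^ 2))) := by ring
  · unfold II
    refine intervalIntegral.continuousAt_of_dominated_interval
      (bound := fun _ => C * Real.exp (-(c * ‖y‖ ^ 2)) * ‖a‖ * ‖a'‖) ?_ ?_ ?_ ?_
    · exact Eventually.of_forall fun p => (dk_cont_t p a a' y).aestronglyMeasurable
    · filter_upwards [hB] with p hp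
      exact Eventually.of_forall fun t ht =>
        hp t y (mem_uIoc_abs (by simp) (Cc.abs_le h y) ht) a a'
    · exact intervalIntegrable_const
    · exact Eventually.of_forall fun t _ => dk_cont_p hp₀ a a' t y

/-- **FC-GS** -/
theorem main (_h1 : BoostAlg) (h2 : KerBound) (_h3 : KerDeriv) (h4 : GGDer) : GGStrict := by
  intro n φ₀ hφ₀ p₀ hp₀ L hL ε hε
  -- the radius
  obtain ⟨ρ, hρ⟩ : ∃ ρ : ℝ, ρ = (1 + ‖p₀‖) / 2 := ⟨_, rfl⟩
  have hρ1 : ρ < 1 := by rw [hρ]; linarith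
  obtain ⟨c, C, hc, hC, hK⟩ := h2 n ρ hρ1
  have hBd : ∀ p : E n, ‖p‖ ≤ ρ → Bd c C p := fun p hp t y ht a a' => (hK p hp t y ht).2.2.2.2 a a'
  have hB0 : ∀ᶠ p in 𝓝 p₀, Bd c C p := by
    have h5 : ∀ᶠ p in 𝓝 p₀, ‖p‖ < ρ :=
      continuous_norm.continuousAt.eventually (gt_mem_nhds (by rw [hρ]; linarith))
    filter_upwards [h5] with p hp
    exact hBd p hp.le
  set b := EuclideanSpace.basisFun (Fin n) ℝ with hb
  -- the constants
  obtain ⟨ε', hε'⟩ : ∃ ε' : ℝ, ε' = ε / (2 * (n ^ 2 + 1)) := ⟨_, rfl⟩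
  have hε'0 : 0 < ε' := by rw [hε']; positivity
  obtain ⟨K, hKd⟩ : ∃ K : ℝ, K = C * ∫ y : E n, ‖y‖ * Real.exp (-(c * ‖y‖ ^ 2)) := ⟨_, rfl⟩
  have hK0 : 0 ≤ K := by
    rw [hKd]
    exact mul_nonneg hC.le (integral_nonneg fun y => by positivity)
  have hcont : ∀ᶠ p in 𝓝 p₀, ∀ i j,
      |(∫ y, II p (b i) (b j) φ₀ y) - ∫ y, II p₀ (b i) (b j) φ₀ y| < ε' := by
    rw [eventually_all]
    intro i
    rw [eventually_all]
    intro j
    have h5 := II_p hc hp₀ hB0 (b i) (b j) hφ₀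
    have h6 := Metric.continuousAt_iff.mp h5 ε' hε'0
    obtain ⟨d, hd, h7⟩ := h6
    filter_upwards [Metric.ball_mem_nhds p₀ hd] with p hp
    exact h7 hp
  obtain ⟨d, hd, hball⟩ := Metric.eventually_nhds_iff_ball.mp hcont
  obtain ⟨δ, hδ⟩ : ∃ δ : ℝ, δ = min d (min ((1 - ‖p₀‖) / 2) (ε' / (K + 1))) := ⟨_, rfl⟩
  have hδ0 : 0 < δ := by
    rw [hδ]
    exact lt_min hd (lt_min (by linarith) (by positivity))
  have hδd : δ ≤ d := by rw [hδ]; exact min_le_left _ _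
  have hδρ : δ ≤ (1 - ‖p₀‖) / 2 := by rw [hδ]; exact (min_le_right _ _).trans (min_le_left _ _)
  have hδK : δ ≤ ε' / (K + 1) := by rw [hδ]; exact (min_le_right _ _).trans (min_le_right _ _)
  have hpρ : ∀ p ∈ ball p₀ δ, ‖p‖ ≤ ρ := by
    intro p hp
    rw [mem_ball, dist_eq_norm] at hp
    have h5 : ‖p‖ ≤ ‖p - p₀‖ + ‖p₀‖ := by
      have := norm_add_le (p - p₀) p₀
      rwa [sub_add_cancel] at this
    rw [hρ]
    linarith
  refine ⟨δ, hδ0, fun p hp => ?_, ?_⟩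
  · rw [mem_ball_zero_iff]
    exact lt_of_le_of_lt (hpρ p hp) hρ1
  intro φ hφ hφδ p hp p' hp'
  -- the derivatives
  have hder : ∀ q : E n, ∃ Lq : E n →L[ℝ] E n, q ∈ ball p₀ δ →
      HasFDerivAt (fun p' => GG p' φ) Lq q ∧ ∀ a a' : E n, (inner ℝ (Lq a) a' : ℝ) =
        (∫ y : E n, ∫ t in (0 : ℝ)..φ y, dk q a a' (Lam q (t, y))) - inner ℝ a a' := by
    intro q
    by_cases hq : q ∈ ball p₀ δ
    · obtain ⟨Lq, h5, h6⟩ := h4 n φ hφ q (lt_of_le_of_lt (hpρ q hq) hρ1)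
      exact ⟨Lq, fun _ => ⟨h5, h6⟩⟩
    · exact ⟨0, fun h => absurd h hq⟩
  choose Lq hLq using hder
  obtain ⟨L', hL', hL'f⟩ := h4 n φ₀ hφ₀ p₀ hp₀
  have hLL : L = L' := hL.unique hL'
  subst hLL
  have hbound : ∀ q ∈ ball p₀ δ, ‖Lq q - L‖ ≤ ε := by
    intro q hq
    have h5 : ‖Lq q - L‖ ≤ n ^ 2 * (2 * ε') := by
      refine opNorm_le_sum _ (by positivity) fun i j => ?_
      have h6 : (inner ℝ ((Lq q - L) (b i)) (b j) : ℝ) =
          ((∫ y, II q (b i) (b j) φ y) - ∫ y, II q (b i) (b j) φ₀ y) +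
          ((∫ y, II q (b i) (b j) φ₀ y) - ∫ y, II p₀ (b i) (b j) φ₀ y) := by
        rw [sub_apply, inner_sub_left, (hLq q hq).2, hL'f]
        unfold II
        ring
      have h7 := II_diff hc (hBd q (hpρ q hq)) (b i) (b j) hφ hφ₀ hφδ
      rw [b.norm_eq_one, b.norm_eq_one, mul_one, mul_one] at h7
      have h8 : C * δ * ∫ y : E n, ‖y‖ * Real.exp (-(c * ‖y‖ ^ 2)) = K * δ := by
        rw [hKd]; ring
      rw [h8] at h7
      have h9 : K * δ ≤ ε' := by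
        calc K * δ ≤ (K + 1) * (ε' / (K + 1)) := by gcongr; linarith
          _ = ε' := by field_simp
      have h10 := hball q (ball_subset_ball hδd hq) i j
      rw [h6]
      calc _ ≤ |(∫ y, II q (b i) (b j) φ y) - ∫ y, II q (b i) (b j) φ₀ y| +
            |(∫ y, II q (b i) (b j) φ₀ y) - ∫ y, II p₀ (b i) (b j) φ₀ y| := abs_add_le _ _
        _ ≤ 2 * ε' := by linarith
    refine h5.trans ?_
    rw [hε']
    have h6 : (n : ℝ) ^ 2 * (2 * (ε / (2 * (n ^ 2 + 1)))) = ε * ((n : ℝ) ^ 2 / (n ^ 2 + 1)) := by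
      field_simp
    rw [h6]
    have h7 : (n : ℝ) ^ 2 / (n ^ 2 + 1) ≤ 1 := by
      rw [div_le_one (by positivity)]
      linarith
    calc ε * ((n : ℝ) ^ 2 / (n ^ 2 + 1)) ≤ ε * 1 := mul_le_mul_of_nonneg_left h7 hε.le
      _ = ε := mul_one _
  exact Convex.norm_image_sub_le_of_norm_hasFDerivWithin_le' (f := fun p => GG p φ) (f' := Lq)
    (fun q hq => (hLq q hq).1.hasFDerivWithinAt) hbound (convex_ball _ _) hp' hp

end Pool.Agent.Q38.FC.GS
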